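import Mathlib
import Pool.Agent.H204R3.TD.Main

/-!
# The `p`-adic Tate conjecture fails for totally degenerate abelian varieties of dimension `≥ 2`

By the theorems of Tate, Mumford, Raynaud and Gerritzen, the principally polarised abelian varieties
`A` of dimension `g` over a finite extension `K` of `ℚ_p` with split totally multiplicative reduction
are the quotients `(𝔾_m)^g / M`, `M` generated by the rows of a symmetric matrix `q` over `K^×` whose
matrix of valuations is positive definite (`IsPeriodMatrix`). The group `A(Kbar)` is
`(Kbar^×)^g / M` (`Points q`), the automorphisms of it given by the absolute Galois group of `K` are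
the elements of `GalSet q`, and `End(A)` is `EndSet q`: the endomorphisms induced by the integral
matrices that preserve `M`.  `RatTate p (Points q)` is the rational `p`-adic Tate module
`V_p(A) = ℚ_p ⊗ lim A(Kbar)[p ^ n]`, and `ratMap p f` is the endomorphism `V_p(f)`.
`TateSurjective p (Points q) (GalSet q) (EndSet q)` says that every Galois equivariant
`ℚ_p`-linear endomorphism of `V_p(A)` is a `ℚ_p`-linear combination of the `V_p(f)`, `f ∈ End(A)`.

The counterexample: `q i j = p ^ (δ i j) * (1 + p) ^ (S i j)` with `S i j = δ i j * i + m` and `m` an
irrational `p`-adic integer.  An integral matrix preserves the lattice only if it commutes with `S`,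
so it is a scalar; but the matrix `S` itself acts on the Tate module, Galois equivariantly.
-/

namespace Pool.Agent.Results.MP_b74fdd_ag.NotSurjective

open Pool.Agent.H204R3.TD

/-- For every prime `p`, every finite extension `K` of `ℚ_p` and every `g ≥ 2` there is a
principally polarised abelian variety `A` over `K` of dimension `g` with split totally multiplicative
reduction, given by its period matrix `q`, such that `End(A) = ℤ` but the natural map from
`End(A) ⊗ ℚ_p` to the Galois equivariant endomorphisms of `V_p(A)` is not surjective. -/
theorem result (p : ℕ) [Fact p.Prime] (K : Type*) [Field K] [Algebra ℚ_[p] K]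
    [FiniteDimensional ℚ_[p] K] (g : ℕ) (hg : 2 ≤ g) :
    ∃ q : Matrix (Fin g) (Fin g) Kˣ, IsPeriodMatrix p q ∧
      (∀ f ∈ EndSet q, ∃ n : ℤ, ∀ x, f x = n • x) ∧
      ¬ TateSurjective p (Points q) (GalSet q) (EndSet q) := by
  obtain ⟨m, hm0, hm⟩ := exists_irr (p := p)
  exact ⟨ourq K m g, isPeriodMatrix_ourq K m g, isEnd_ourq K m hm (by omega),
    fun h => extra_not_mem K m hm0 hm hg (h (extra K m g) (isGalEquivariant_extra K m))⟩

end Pool.Agent.Results.MP_b74fdd_ag.NotSurjective
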